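import Pool.Agent.H64.NLW.Rows
import Pool.Agent.H10.KM.NTR
import Pool.Agent.H11.KM.KIM
import Pool.Agent.H14.KM.GCN
import Pool.Agent.H14.KM.GSW
import Pool.Agent.H17.KM.TRB
import Pool.Agent.H19.KM.RCH
import Pool.Agent.H19.KM.SPH
import Pool.Agent.H19.KM.SPZ
import Pool.Agent.H35.KM.THM
import Pool.Agent.H36.KM.CPR
import Pool.Agent.H36.KM.NTN
import Pool.Agent.H4.KM.MNN
import Pool.Agent.H40.KM.MEM
import Pool.Agent.H44.KM.BSY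
import Pool.Agent.H46.KM.SYL
import Pool.Agent.H53.KM.PAT
import Pool.Agent.H53.KM.TYP
import Pool.Agent.H60.KM.SPJ
import Pool.Agent.H60.KM.SYR
import Pool.Agent.H66.KM.OPS
import Pool.Agent.H66.KM.SPA
import Pool.Agent.H67.KM.BSP
import Pool.Agent.H68.KM.VCB
import Pool.Agent.H69.KM.CPS
import Pool.Agent.H69.KM.IDP
import Pool.Agent.H7.KM.CMM
import Pool.Agent.H70.KM.SEL
import Pool.Agent.H70.KM.SPT

/-!
# The rows, composed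
-/

set_option autoImplicit false

open Pool.Agent.H2.NL Pool.Agent.H2.KM

namespace Pool.Agent.H64.NMW

theorem k_BSP : T_BSP :=
  Pool.Agent.H67.KM.pf_BSP

theorem k_OPS : T_OPS :=
  Pool.Agent.H66.KM.pf_OPS

theorem k_GSW : T_GSW :=
  Pool.Agent.H14.KM.pf_GSW

theorem k_GCN : T_GCN :=
  Pool.Agent.H14.KM.pf_GCN

theorem k_RCH : T_RCH :=
  Pool.Agent.H19.KM.pf_RCH

theorem k_MEM : T_MEM :=
  Pool.Agent.H40.KM.pf_MEM k_GSW k_GCN k_RCH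

theorem k_BSY : T_BSY :=
  Pool.Agent.H44.KM.pf_BSY k_OPS Pool.Agent.H64.NLW.r_OPG k_MEM

theorem k_CMM : T_CMM :=
  Pool.Agent.H7.KM.pf_CMM

theorem k_CPR : T_CPR :=
  Pool.Agent.H36.KM.pf_CPR Pool.Agent.H64.NLW.r_CPL

theorem k_SYL : T_SYL :=
  Pool.Agent.H46.KM.pf_SYL

theorem k_SYR : T_SYR :=
  Pool.Agent.H60.KM.pf_SYR

theorem k_SEL : T_SEL :=
  Pool.Agent.H70.KM.pf_SEL

theorem k_SPH : T_SPH :=
  Pool.Agent.H19.KM.pf_SPH k_SEL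

theorem k_SPZ : T_SPZ :=
  Pool.Agent.H19.KM.pf_SPZ Pool.Agent.H64.NLW.r_SYM k_SYL k_SYR k_SPH k_OPS Pool.Agent.H64.NLW.r_OPG Pool.Agent.H64.NLW.r_IDS

theorem k_SPJ : T_SPJ :=
  Pool.Agent.H60.KM.pf_SPJ

theorem k_SPA : T_SPA :=
  Pool.Agent.H66.KM.pf_SPA k_SPZ k_SPJ Pool.Agent.H64.NLW.r_IDS Pool.Agent.H64.NLW.r_OPG

theorem k_IDP : T_IDP :=
  Pool.Agent.H69.KM.pf_IDP k_SPH k_SYR k_SPJ

theorem k_CPS : T_CPS :=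
  Pool.Agent.H69.KM.pf_CPS Pool.Agent.H64.NLW.r_CPL Pool.Agent.H64.NLW.r_CPW Pool.Agent.H64.NLW.r_NIL k_SPA k_IDP

theorem k_TRB : T_TRB :=
  Pool.Agent.H17.KM.pf_TRB

theorem k_TYP : T_TYP :=
  Pool.Agent.H53.KM.pf_TYP k_GCN k_BSP k_CMM

theorem k_PAT : T_PAT :=
  Pool.Agent.H53.KM.pf_PAT k_GCN

theorem k_VCB : T_VCB :=
  Pool.Agent.H68.KM.pf_VCB k_BSP k_CMM

theorem k_MNN : T_MNN :=
  Pool.Agent.H4.KM.MNN.pf_MNN Pool.Agent.H64.NLW.r_SYM k_GSW k_BSP k_TYP k_PAT k_VCB k_MEM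

theorem k_KIM : T_KIM :=
  Pool.Agent.H11.KM.pf_KIM k_SPZ k_BSY k_TRB k_MNN Pool.Agent.H64.NLW.r_MLG

theorem k_SPT : T_SPT :=
  Pool.Agent.H70.KM.pf_SPT k_SEL k_SYL

theorem k_NTN : T_NTN :=
  Pool.Agent.H36.KM.pf_NTN k_SPJ k_SPT

theorem k_NTR : T_NTR :=
  Pool.Agent.H10.KM.pf_NTR k_SPJ Pool.Agent.H64.NLW.r_MLG Pool.Agent.H64.NLW.r_OPJ Pool.Agent.H64.NLW.r_OPG Pool.Agent.H64.NLW.r_IDS Pool.Agent.H64.NLW.r_PFB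

theorem k_THM : T_THM :=
  Pool.Agent.H35.KM.pf_THM Pool.Agent.H64.NLW.r_EPS Pool.Agent.H64.NLW.r_SCA Pool.Agent.H64.NLW.r_VAN Pool.Agent.H64.NLW.r_ADA Pool.Agent.H64.NLW.r_CAL Pool.Agent.H64.NLW.r_SYS Pool.Agent.H64.NLW.r_SDM Pool.Agent.H64.NLW.r_REC k_KIM k_NTR k_NTN k_CPR k_SPA

end Pool.Agent.H64.NMW
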