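import Pool.Agent.H2.KM.Defs

/-!
# The rest of the motive of a generic complete intersection
-/

set_option autoImplicit false

open Matrix

namespace Pool.Agent.H64.CC.Weil

open Pool.Agent.H2.NL Pool.Agent.H2.KM

variable {K : Type} [Field K] [CharZero K] {W : Weil K}

/-- `(T, ε)` is a maximal direct factor of the motive of the generic complete intersection `T` which
comes from `V`: `ε` is an algebraic, self-adjoint idempotent, the restriction of a correspondence
`c` of `V`, and the correspondences which vanish on the vanishing classes are numerically trivial on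
the rest `R = (T, 1 - ε)` of the motive of `T`; and `-b` is the Euler characteristic of `R` -/
structure Remainder {m : ℕ} {V : W.Var 0} {L : W.Hom V V} {r : ℕ} {T : W.Var m}
    (S : W.Symplectic V L r T) (ε : W.Hom T T) (b : ℕ) : Prop where
  mem : ε ∈ W.cyc T T 0
  idem : W.comp ε ε = ε
  adj : εᵀ * S.powers.form = S.powers.form * ε
  factor : ∃ c ∈ W.cyc V V (-(r : ℤ)), ε = W.comp (W.comp S.up c) S.down
  max : ∀ f ∈ W.cyc T T 0, (∀ u, W.Vanishing S.toGenericIntersection u → W.ap f u = 0) →
    W.str (W.comp f (1 - ε)) = 0
  euler : W.str (1 - ε) = -(b : K)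

end Pool.Agent.H64.CC.Weil
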