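import Pool.Agent.H64.NMW.Defs
import Pool.Agent.H64.NMW.Rows
import Pool.Agent.H64.NLW.Local

/-!
# The numerical motive of a generic complete intersection of odd dimension
-/

set_option autoImplicit false

open Matrix Pool.Agent.H64.CC Pool.Agent.H2.NL Pool.Agent.H2.KM

namespace Pool.Agent.H64.NMW

open Pool.Agent.H64.NLW

section

variable {K : Type} [Field K] [CharZero K] (W : Weil K) (hW : W.Theory)

/-- a restriction kills the vanishing classes -/
theorem kills {V : W.Var 0} {L : W.Hom V V} {r m : ℕ} {T : W.Var m}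
    (S : W.Symplectic V L r T) {ε : W.Hom T T} {b : ℕ} (R : Weil.Remainder S ε b) :
    ∀ u, W.Vanishing S.toGenericIntersection u → W.ap ε u = 0 := by
  intro u hu
  obtain ⟨c, -, hc⟩ := R.factor
  rw [hc]
  change ((S.up * c) * S.down) *ᵥ u = 0
  rw [← Matrix.mulVec_mulVec]
  have h : S.down *ᵥ u = 0 := hu.2
  rw [h, Matrix.mulVec_zero]

include hW in
theorem main_of {V : W.Var 0} {L : W.Hom V V} (hL : L ∈ W.Lef V) {r m : ℕ} {T : W.Var m}
    (S : W.Symplectic V L r T) {ε : W.Hom T T} {b : ℕ} (R : Weil.Remainder S ε b) :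
    Even b ∧
    (∀ n : ℕ, S.powers.symPow (1 - ε) n ∈ W.cyc (S.powers.pow n) (S.powers.pow n) 0) ∧
    W.NumTrivial (S.powers.pow (b + 1)) (S.powers.symPow (1 - ε) (b + 1)) ∧
    (∀ n ≤ b, ¬ W.NumTrivial (S.powers.pow n) (S.powers.symPow (1 - ε) n)) := by
  have hε := R.mem
  have hεε : ε * ε = ε := R.idem
  have hεadj := R.adj
  have hεV := kills W S R
  have hεmax : ∀ f ∈ W.cyc T T 0, (∀ u, W.Vanishing S.toGenericIntersection u → W.ap f u = 0) →
      W.str (f * (1 - ε)) = 0 := R.max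
  obtain ⟨-, -, hv3, -⟩ := r_VAN K W hW V L hL r m T S
  have hρ : (1 : W.Hom T T) - ε ∈ W.cyc T T 0 :=
    (W.cyc T T 0).sub_mem (hW.calculus.one_mem T) hε
  have hρρ : ((1 : W.Hom T T) - ε) * (1 - ε) = 1 - ε := by
    rw [mul_sub, mul_one, sub_mul, one_mul, hεε, sub_self, sub_zero]
  have hρadj : ((1 : W.Hom T T) - ε)ᵀ * S.powers.form = S.powers.form * (1 - ε) := by
    rw [Matrix.transpose_sub, Matrix.transpose_one, sub_mul, one_mul, hεadj, mul_sub, mul_one]
  have hρdeg : ∀ a b, ((1 : W.Hom T T) - ε) a b ≠ 0 → W.deg T a = W.deg T b := by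
    intro a b hab
    have h := hW.calculus.cyc_deg T T 0 _ hρ a b hab
    omega
  have hρU : ∀ u ∈ van S.toGenericIntersection, ((1 : W.Hom T T) - ε) *ᵥ u = u := by
    intro u hu
    have h := hεV u hu
    have h' : ε *ᵥ u = 0 := h
    rw [Matrix.sub_mulVec, Matrix.one_mulVec, h', sub_zero]
  obtain ⟨n, n', ⟨D⟩⟩ := r_ADA K (W.rk T) (W.deg T) (W.dim T) S.powers.form (1 - ε) S.odd
    S.powers.form_deg S.powers.form_symm S.powers.form_unit hρρ hρadj hρdeg
    (van S.toGenericIntersection) (fun u hu => hu.1) hρU (fun u hu hv => hv3 u hu hv)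
  have hsys := r_SYS K W hW V L hL r m T S ε hε hεε hεadj hεV hεmax
    (van S.toGenericIntersection) (fun u => Iff.rfl) n n' D
  have hcal := r_CAL K W m T S.powers (1 - ε) hρ (van S.toGenericIntersection) n n' D
  obtain ⟨-, l, hl, -, hsd⟩ := r_SDM K (Fin n) (Fin n') D.F _ hsys
  have hkim := k_KIM K (Fin n ⊕ Fin n') D.F _ hcal l hl
    (fun x hx hsym => r_REC K (Fin n) (Fin n') D.F _ hsys l x hl hsd hx hsym)
  have hnt := k_NTR K W hW m T S.powers (1 - ε) hρ hρρ (van S.toGenericIntersection) n n' D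
    (2 * l - 1) hkim
  obtain ⟨hstr, hnn⟩ := k_NTN K W hW m T S.powers (1 - ε) hρ hρρ (van S.toGenericIntersection)
    n n' D
  have hb : D.F.sd = -(((2 * l - 2 : ℕ)) : K) := by
    rw [hsd, Nat.cast_sub (by omega)]
    push_cast
    ring
  have hb2 : b = 2 * l - 2 := by
    have h1 : -(b : K) = -(((2 * l - 2 : ℕ)) : K) := by
      rw [← hb, ← hstr]
      exact R.euler.symm
    exact Nat.cast_injective (neg_injective h1)
  rw [hb2]
  refine ⟨⟨l - 1, by omega⟩, k_SPA K W hW m T S.powers (1 - ε) hρ, ?_,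
    fun N hN => hnn N (2 * l - 2) hb hN⟩
  have e3 : 2 * l - 2 + 1 = 2 * l - 1 := by omega
  rw [e3]
  exact hnt

include hW in
/-- the Künneth components of the part which comes from `V` are algebraic -/
theorem comp_pj_mem {V : W.Var 0} {L : W.Hom V V} {r m : ℕ} {T : W.Var m}
    (S : W.Symplectic V L r T) {ε : W.Hom T T} {b : ℕ} (R : Weil.Remainder S ε b) (i : ℕ) :
    W.comp ε (W.pj T i) ∈ W.cyc T T 0 := by
  obtain ⟨c, hc, he⟩ := R.factor
  have h1 : S.down * W.pj T i = W.pj V (i + 2 * r) * S.down := by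
    ext a b
    unfold Weil.pj
    rw [Matrix.mul_diagonal, Matrix.diagonal_mul]
    by_cases h0 : S.down a b = 0
    · rw [h0, zero_mul, mul_zero]
    · have h1 := S.down_deg a b h0
      by_cases h2 : W.deg T b = i
      · have h3 : W.deg V a = i + 2 * r := by omega
        rw [if_pos h2, if_pos h3, mul_one, one_mul]
      · have h3 : ¬ W.deg V a = i + 2 * r := by omega
        rw [if_neg h2, if_neg h3, mul_zero, zero_mul]
  have h2 : W.comp ε (W.pj T i) =
      W.comp (W.comp S.up (W.comp c (W.pj V (i + 2 * r)))) S.down := by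
    rw [he]
    change S.up * c * S.down * W.pj T i = S.up * (c * W.pj V (i + 2 * r)) * S.down
    rw [Matrix.mul_assoc (S.up * c), h1]
    simp only [Matrix.mul_assoc]
  rw [h2]
  refine S.restrict _ ?_
  have h3 := hW.calculus.comp_mem V V V 0 (-(r : ℤ)) (W.pj V (i + 2 * r))
    (hW.katzMessing V _) c hc
  rwa [zero_add] at h3

include hW in
/-- the rest exists -/
theorem remainder_exists {V : W.Var 0} {L : W.Hom V V} (hL : L ∈ W.Lef V) {r m : ℕ} {T : W.Var m}
    (S : W.Symplectic V L r T) : ∃ (ε : W.Hom T T) (b : ℕ), Weil.Remainder S ε b := by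
  obtain ⟨ε, h1, h2, h3, h4, -, h6, -, b, -, hb, -⟩ :=
    k_THM K W hW V L hL r m T S
  exact ⟨ε, b, h1, h3, h4, h2, h6, hb⟩

include hW in
/-- the symmetric power vanishes if it has no numerically trivial direct factor -/
theorem zero_of_noPhantom {V : W.Var 0} {L : W.Hom V V} {r m : ℕ}
    {T : W.Var m} (S : W.Symplectic V L r T) {ε : W.Hom T T} {b : ℕ} (R : Weil.Remainder S ε b)
    (n : ℕ) (h : W.NumTrivial (S.powers.pow n) (S.powers.symPow (1 - ε) n))
    (hno : W.NoPhantom (S.powers.pow n)) : S.powers.symPow (1 - ε) n = 0 := by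
  have hε := R.mem
  have hεε : ε * ε = ε := R.idem
  have hρ : (1 : W.Hom T T) - ε ∈ W.cyc T T 0 :=
    (W.cyc T T 0).sub_mem (hW.calculus.one_mem T) hε
  have hρρ : ((1 : W.Hom T T) - ε) * (1 - ε) = 1 - ε := by
    rw [mul_sub, mul_one, sub_mul, one_mul, hεε, sub_self, sub_zero]
  have hρdeg : ∀ a b, ((1 : W.Hom T T) - ε) a b ≠ 0 → W.par T a = W.par T b := by
    intro a b hab
    have h := hW.calculus.cyc_deg T T 0 _ hρ a b hab
    have h1 : W.deg T a = W.deg T b := by omega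
    unfold Weil.par
    rw [h1]
  have hsq : S.powers.symPow (1 - ε) n * S.powers.symPow (1 - ε) n =
      (n.factorial : K) • S.powers.symPow (1 - ε) n := by
    have h1 := k_IDP K (Fin (W.rk T)) (W.par T) (1 - ε) hρdeg hρρ n
    ext a c
    obtain ⟨φ, hφ⟩ : ∃ φ : Fin (W.rk (S.powers.pow n)) → List.Vector (Fin (W.rk T)) n,
        ∀ x, (φ x).1 = S.powers.word n x :=
      ⟨fun x => ⟨S.powers.word n x, (S.powers.word_range n _).1 ⟨x, rfl⟩⟩, fun x => rfl⟩
    have hbij : Function.Bijective φ := by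
      refine ⟨fun x y hxy => S.powers.word_inj n ?_, fun v => ?_⟩
      · rw [← hφ x, ← hφ y, hxy]
      · obtain ⟨x, hx⟩ := (S.powers.word_range n v.1).2 v.2
        exact ⟨x, Subtype.ext ((hφ x).trans hx)⟩
    have h2 := congrFun (congrFun h1 (φ a)) (φ c)
    rw [Matrix.mul_apply, Matrix.smul_apply] at h2 ⊢
    have h5 : ∀ x y, S.powers.symPow (1 - ε) n x y = Sp (W.par T) (1 - ε) n (φ x) (φ y) := by
      intro x y
      show sp (W.par T) (1 - ε) (S.powers.word n x) (S.powers.word n y) =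
        sp (W.par T) (1 - ε) (φ x).1 (φ y).1
      rw [hφ, hφ]
    have h3 : ∑ x : List.Vector (Fin (W.rk T)) n, Sp (W.par T) (1 - ε) n (φ a) x *
        Sp (W.par T) (1 - ε) n x (φ c) =
        ∑ x, S.powers.symPow (1 - ε) n a x * S.powers.symPow (1 - ε) n x c := by
      symm
      refine Fintype.sum_bijective φ hbij _ _ fun x => ?_
      rw [h5, h5]
    rw [← h3, h2, h5]
  have hf : ((n.factorial : ℕ) : K) ≠ 0 := Nat.cast_ne_zero.2 (Nat.factorial_ne_zero n)
  obtain ⟨P, hP⟩ : ∃ P, P = S.powers.symPow (1 - ε) n := ⟨_, rfl⟩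
  have hPc : P ∈ W.cyc (S.powers.pow n) (S.powers.pow n) 0 := by
    rw [hP]
    exact k_SPA K W hW m T S.powers (1 - ε) hρ n
  rw [← hP] at h hsq ⊢
  have h1 : ((n.factorial : ℕ) : K)⁻¹ • P = 0 := by
    refine hno _ ?_ ?_ ?_
    · have h2 : ((n.factorial : ℕ) : K)⁻¹ • P = ((n.factorial : ℚ)⁻¹) • P := by
        ext a c
        rw [Matrix.smul_apply, Matrix.smul_apply, Rat.smul_def, smul_eq_mul]
        push_cast
        rfl
      rw [h2]
      exact (W.cyc _ _ 0).smul_mem _ hPc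
    · change (((n.factorial : ℕ) : K)⁻¹ • P) * (((n.factorial : ℕ) : K)⁻¹ • P) = _
      rw [Matrix.smul_mul, Matrix.mul_smul, hsq, smul_smul, smul_smul, mul_assoc,
        inv_mul_cancel₀ hf, mul_one]
    · intro g hg
      have h3 : W.str (W.comp g P) = 0 := h g hg
      have h4 : W.comp g (((n.factorial : ℕ) : K)⁻¹ • P) =
          ((n.factorial : ℕ) : K)⁻¹ • W.comp g P := Matrix.mul_smul _ _ _
      rw [h4]
      unfold Weil.str at h3 ⊢
      have h5 : ∑ a, (-1 : K) ^ W.deg (S.powers.pow n) a *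
          (((n.factorial : ℕ) : K)⁻¹ • W.comp g P) a a = ((n.factorial : ℕ) : K)⁻¹ *
          ∑ a, (-1 : K) ^ W.deg (S.powers.pow n) a * W.comp g P a a := by
        rw [Finset.mul_sum]
        refine Finset.sum_congr rfl fun a _ => ?_
        rw [Matrix.smul_apply, smul_eq_mul]
        ring
      rw [h5, h3, mul_zero]
  rcases smul_eq_zero.1 h1 with h2 | h2
  · exact absurd h2 (inv_ne_zero hf)
  · exact h2

include hW in
/-- one generic complete intersection -/
theorem core_tfae {V : W.Var 0} {L : W.Hom V V} (hL : L ∈ W.Lef V) {r m : ℕ}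
    {T : W.Var m} (S : W.Symplectic V L r T) {ε : W.Hom T T} {b : ℕ} (R : Weil.Remainder S ε b) :
    List.TFAE [
      W.Cplus T,
      (1 - ε).rank = b,
      S.powers.symPow (1 - ε) (b + 1) = 0,
      W.NoPhantom (S.powers.pow (b + 1))] := by
  have hm := main_of W hW hL S R
  have hεmax : ∀ f ∈ W.cyc T T 0, (∀ u, W.Vanishing S.toGenericIntersection u → W.ap f u = 0) →
      W.str (f * (1 - ε)) = 0 := R.max
  tfae_have 1 ↔ 2 := k_CPR K W hW V L hL r m T S ε R.mem R.idem (kills W S R) hεmax b R.euler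
  tfae_have 1 ↔ 3 := k_CPS K W hW V L hL r m T S ε R.mem R.idem (kills W S R) (b + 1) hm.2.2.1
  tfae_have 1 → 4 := by
    intro h
    have h1 : ∀ n : ℕ, W.Nilpotence (S.powers.pow n) := ((local_form W hW hL S).1.out 0 2).1 h
    exact (r_NIL K W hW m _).2 (h1 (b + 1))
  tfae_have 4 → 3 := fun h => zero_of_noPhantom W hW S R (b + 1) hm.2.2.1 h
  tfae_finish

include hW in
/-- one degree of one variety over `F 0` -/
theorem bdeg_of_zero (Z : W.Var 0) (i : ℕ) (hi : i < W.dim Z)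
    (h : ∃ L ∈ W.Lef Z, ∃ (m : ℕ) (T : W.Var m)
      (S : W.Symplectic (W.prod Z Z) (W.box L L) (2 * (W.dim Z - i) - 1) T)
      (ε : W.Hom T T) (b : ℕ), Weil.Remainder S ε b ∧ S.powers.symPow (1 - ε) (b + 1) = 0) :
    W.BDeg Z i := by
  obtain ⟨L, hL, m, T, S, ε, b, R, h⟩ := h
  refine (point W hW Z i hi).1 ⟨L, hL, m, T, ⟨S.toGenericIntersection⟩, ?_⟩
  exact ((core_tfae W hW (hW.lefschetz.box_mem Z Z L hL L hL) S R).out 2 0).1 h

include hW in
/-- one variety over `F 0` -/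
theorem b_tfae3 (hO : W.OddSections) (Z : W.Var 0) :
    List.TFAE [
      W.B Z,
      ∀ L ∈ W.Lef (W.prod Z Z), ∀ (r m : ℕ) (T : W.Var m) (S : W.Symplectic (W.prod Z Z) L r T)
        (ε : W.Hom T T) (b : ℕ), Weil.Remainder S ε b → S.powers.symPow (1 - ε) (b + 1) = 0,
      ∀ i < W.dim Z, ∃ L ∈ W.Lef Z, ∃ (m : ℕ) (T : W.Var m)
        (S : W.Symplectic (W.prod Z Z) (W.box L L) (2 * (W.dim Z - i) - 1) T)
        (ε : W.Hom T T) (b : ℕ), Weil.Remainder S ε b ∧
          S.powers.symPow (1 - ε) (b + 1) = 0] := by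
  tfae_have 1 → 2 := by
    intro hB L hL r m T S ε b R
    have h0 : ∀ L ∈ W.Lef (W.prod Z Z), ∀ (r m : ℕ) (T : W.Var m)
        (S : W.Symplectic (W.prod Z Z) L r T) (n : ℕ), W.Nilpotence (S.powers.pow n) :=
      ((b_tfae2 r_CPW r_NIL r_LOC W hW hO Z).out 0 3).1 hB
    have h2 : W.Cplus T := ((local_form W hW hL S).1.out 2 0).1 (h0 L hL r m T S)
    exact ((core_tfae W hW hL S R).out 0 2).1 h2
  tfae_have 2 → 3 := by
    intro h i hi
    obtain ⟨L, hL, m, T, ⟨S⟩⟩ := sign_exists' W hW hO Z i hi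
    have hLL := hW.lefschetz.box_mem Z Z L hL L hL
    obtain ⟨ε, b, R⟩ := remainder_exists W hW hLL S
    exact ⟨L, hL, m, T, S, ε, b, R, h _ hLL _ m T S ε b R⟩
  tfae_have 3 → 1 := by
    intro h
    refine (b_iff W hW Z).1 (b_of_bdeg (toTheory W hW) Z fun i hi => ?_)
    exact (bdeg_iff W hW Z i).2 (bdeg_of_zero W hW Z i hi (h i hi))
  tfae_finish

include hW in
/-- all varieties -/
theorem global_iff (hO : W.OddSections) (hM : W.Models) :
    (∀ (n : ℕ) (X : W.Var n), W.C X ∧ W.B X) ↔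
      ∀ (V : W.Var 0) (L : W.Hom V V), L ∈ W.Lef V → ∀ (r m : ℕ) (T : W.Var m)
        (S : W.Symplectic V L r T) (ε : W.Hom T T) (b : ℕ), Weil.Remainder S ε b →
        S.powers.symPow (1 - ε) (b + 1) = 0 := by
  have h0 := global_tfae2 r_CPW r_NIL r_LOC W hW hO hM
  constructor
  · intro h V L hL r m T S ε b R
    have h2 : ∀ (n : ℕ) (X : W.Var n), W.Cplus X := (h0.out 6 0).1 h
    have h1 := h2 m T
    exact ((core_tfae W hW hL S R).out 0 2).1 h1
  · intro h
    refine (h0.out 5 6).1 fun Z => ?_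
    exact ((b_tfae3 W hW hO Z).out 1 0).1 fun L hL r m T S ε b R =>
      h (W.prod Z Z) L hL r m T S ε b R

include hW in
/-- the Künneth projectors are numerically equivalent to classes of cycles -/
theorem numC_symplectic {V : W.Var 0} {L : W.Hom V V} (hL : L ∈ W.Lef V) {r m : ℕ} {T : W.Var m}
    (S : W.Symplectic V L r T) (j : ℕ) : ∃ γ ∈ W.cyc T T 0, ∀ f ∈ W.cyc T T 0,
      W.str (W.comp γ f) = W.str (W.comp (W.pj T j) f) :=
  numC_generic r_VAN r_SCA r_ADA r_EPS r_SYS W hW hL S j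

end

end Pool.Agent.H64.NMW
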